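import Pool.Agent.Helper93.PL.St

/-!
# Project PL, module Crp: Chinese remainder theorem for vectors
-/

set_option autoImplicit false

namespace Pool.Agent.Helper61.PL

open Finset
open Pool.Agent.Helper93.PL

theorem crt1 {a b : ℕ} (ha : 1 ≤ a) (hb : 1 ≤ b) (hab : Nat.Coprime a b) {u v : ℤ}
    (hu : 0 ≤ u ∧ u < a) (hv : 0 ≤ v ∧ v < b) :
    ∃ z : ℤ, 0 ≤ z ∧ z < ((a * b : ℕ) : ℤ) ∧ z % a = u ∧ z % b = v := by
  obtain ⟨m, rfl⟩ := Int.eq_ofNat_of_zero_le hu.1
  obtain ⟨n, rfl⟩ := Int.eq_ofNat_of_zero_le hv.1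
  have h := (Nat.chineseRemainder hab m n).2
  have hlt := Nat.chineseRemainder_lt_mul hab m n (by omega) (by omega)
  have hm : m < a := by exact_mod_cast hu.2
  have hn : n < b := by exact_mod_cast hv.2
  refine ⟨((Nat.chineseRemainder hab m n : ℕ) : ℤ), by positivity, by exact_mod_cast hlt, ?_, ?_⟩
  · have h1 : (Nat.chineseRemainder hab m n : ℕ) % a = m := by
      have := h.1
      unfold Nat.ModEq at this
      rw [this, Nat.mod_eq_of_lt hm]
    exact_mod_cast h1
  · have h1 : (Nat.chineseRemainder hab m n : ℕ) % b = n := by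
      have := h.2
      unfold Nat.ModEq at this
      rw [this, Nat.mod_eq_of_lt hn]
    exact_mod_cast h1

theorem hCrp : StCrp := by
  intro d a b ha hb hab G
  rw [← Finset.sum_product']
  have ha' : (0 : ℤ) < a := by exact_mod_cast ha
  have hb' : (0 : ℤ) < b := by exact_mod_cast hb
  refine Finset.sum_bij (fun F _ => (fun i => F i % a, fun i => F i % b)) ?_ ?_ ?_ ?_
  · intro F _
    rw [Finset.mem_product, Fintype.mem_piFinset, Fintype.mem_piFinset]
    exact ⟨fun i => Finset.mem_Ico.2 ⟨Int.emod_nonneg _ ha'.ne', Int.emod_lt_of_pos _ ha'⟩,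
      fun i => Finset.mem_Ico.2 ⟨Int.emod_nonneg _ hb'.ne', Int.emod_lt_of_pos _ hb'⟩⟩
  · intro F hF F' hF' h
    rw [Fintype.mem_piFinset] at hF hF'
    funext i
    have h1 : F i % a = F' i % a := congrFun (congrArg Prod.fst h) i
    have h2 : F i % b = F' i % b := congrFun (congrArg Prod.snd h) i
    have e1 := Finset.mem_Ico.1 (hF i)
    have e2 := Finset.mem_Ico.1 (hF' i)
    have d1 : (a : ℤ) ∣ F i - F' i := Int.ModEq.dvd h1.symm
    have d2 : (b : ℤ) ∣ F i - F' i := Int.ModEq.dvd h2.symm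
    have hc : IsCoprime (a : ℤ) (b : ℤ) := Nat.isCoprime_iff_coprime.2 hab
    obtain ⟨q, hq⟩ := hc.mul_dvd d1 d2
    have e3 : ((a * b : ℕ) : ℤ) = (a : ℤ) * b := by push_cast; ring
    rw [e3] at e1 e2
    have hq0 : q = 0 := by
      have hpos : (0 : ℤ) < a * b := mul_pos ha' hb'
      have l1 : (a : ℤ) * b * q < a * b * 1 := by rw [← hq]; linarith [e1.2, e2.1]
      have l2 : (a : ℤ) * b * (-1) < a * b * q := by rw [← hq]; linarith [e1.1, e2.2]
      have l3 := lt_of_mul_lt_mul_left l1 hpos.le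
      have l4 := lt_of_mul_lt_mul_left l2 hpos.le
      omega
    rw [hq0, mul_zero] at hq
    linarith
  · intro P hP
    rw [Finset.mem_product, Fintype.mem_piFinset, Fintype.mem_piFinset] at hP
    have h : ∀ i, ∃ z : ℤ, 0 ≤ z ∧ z < ((a * b : ℕ) : ℤ) ∧ z % a = P.1 i ∧ z % b = P.2 i := fun i =>
      crt1 ha hb hab (Finset.mem_Ico.1 (hP.1 i)) (Finset.mem_Ico.1 (hP.2 i))
    choose F hF using h
    refine ⟨F, Fintype.mem_piFinset.2 fun i => Finset.mem_Ico.2 ⟨(hF i).1, (hF i).2.1⟩, ?_⟩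
    exact Prod.ext (funext fun i => (hF i).2.2.1) (funext fun i => (hF i).2.2.2)
  · intro F _
    rfl

end Pool.Agent.Helper61.PL
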